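import Pool.Agent.U10.Mu.A
import Pool.Agent.U10.Mu.C
import Pool.Agent.U10.Mu.Fam
import Pool.Agent.U120.GapI

/-!
# One field controls the μ-invariants of the character parts of class groups

Let `k` be a number field, for example an imaginary quadratic one, `p` a prime number and `k_∞` a
`ℤ_p`-extension of `k`, for example the cyclotomic one.  It is given by a continuous surjective homomorphism
`a` from the Galois group of `k` onto `ℤ_p` whose kernel is the Galois group of `k_∞`.  Let `ψ` be a character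
of the Galois group of `k` with values in `F_p^×`, and let `k(ψ)` be the field which belongs to its kernel.
Let `Ω` be a Galois extension of `k`, finite or infinite, for example an abelian one, such that the degrees of
the finite extensions of `k` in `Ω` are prime to `p`.

For a finite extension `K ⊆ Ω` of `k` let `X` be the Galois group over `K k_∞ k(ψ)` of its maximal unramified
abelian pro-`p` extension: the limit of the `p`-parts of the class groups of the layers of
`K(ψ) k_∞ / K(ψ)`.  Let `r(K)` be the rank over `F_p[[T]]` of the module of the homomorphisms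
`f : X → F_p[[T]]` with `f(σ x σ⁻¹) = ψ(σ) (1 + T) ^ a(σ) f(x)` for all `σ` in the Galois group of `K`.  It is the
number of the factors `Λ/p^m` of the `ψ`-part of `X`, the largest quotient of the module `X` on which
`Gal(K(ψ)/K)` acts by the lift of `ψ` to `ℤ_p^×`.  The sum over all powers of `ψ` is the number of the factors for
the field `K(ψ)`, and each abelian extension of `k` whose exponent divides `p - 1` is a compositum of fields
`k(ψ)`.

We show:

1. `r(K) + r(K') ≤ r(K K') + r(K ∩ K')` for all `K`, `K'` in `Ω`.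
2. The ranks `r(K)`, `K ⊆ Ω`, are bounded if and only if there is a finite extension `K₁ ⊆ Ω` of `k` with finite
   rank that controls them: `r(K) = r(K ∩ K₁)` for all `K ⊆ Ω`.
3. In this case there is a smallest controlling field `K₀`.  It is Galois over `k`, and its Galois group
   is isomorphic to a group of `c × c` matrices over `F_p`, where `c = r(K₀)` is the largest of the ranks.  If an
   element of the group has the order `ℓ ^ e > 1`, `ℓ` prime, then the order of `p` modulo `ℓ ^ e` is at most `c`.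
   If `c ≤ 1` then `K₀` is cyclic over `k` of degree dividing `p - 1`.
4. `r(K) = r(k)` for all `K ⊆ Ω` of degree prime to the degree of `K₀`.

Proof.  helper10's project MU (packages of helper103 and helper72) works for each character with values in
`F_p[[T]]^×`; here it is used for the character `ψ (1 + T) ^ a`.  The bound for the orders comes from the
irreducible factors of the cyclotomic polynomials over `F_p`.
-/

set_option autoImplicit false

open Module

namespace Pool.Agent.Results.MP_b78433_nt.CharacterParts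

open Pool.Agent.U10.Mu
open Pool.Agent.U10.Shr (ine)
open Pool.Agent.U120.GapG

variable {k : Type} [Field k] [NumberField k]

/-- `f` is a continuous homomorphism from the Galois group of `K k_∞ k(ψ)` (`a.ker` and `ψ.ker` are the Galois
groups of `k_∞` and `k(ψ)`) to `F_p[[T]]` which is zero on all inertia groups, with
`f(σ x σ⁻¹) = ψ(σ) (1 + T) ^ a(σ) f(x)` for all `σ` in the Galois group of `K`. -/
def IsTwistedMap (p : ℕ) [Fact p.Prime]
    (a : (AlgebraicClosure k ≃ₐ[k] AlgebraicClosure k) →* Multiplicative ℤ_[p])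
    (ψ : (AlgebraicClosure k ≃ₐ[k] AlgebraicClosure k) →* (ZMod p)ˣ)
    (K : IntermediateField k (AlgebraicClosure k))
    (f : ↥(K.fixingSubgroup ⊓ (a.ker ⊓ ψ.ker)) → PowerSeries (ZMod p)) : Prop :=
  (∀ x y, f (x * y) = f x + f y) ∧
  (∀ n, IsLocallyConstant fun x => PowerSeries.coeff n (f x)) ∧
  (∀ V : ValuationSubring (AlgebraicClosure k), ∀ x : ↥(K.fixingSubgroup ⊓ (a.ker ⊓ ψ.ker)),
    x.1 ∈ ine k V → f x = 0) ∧
  ∀ σ ∈ K.fixingSubgroup, ∀ x y : ↥(K.fixingSubgroup ⊓ (a.ker ⊓ ψ.ker)),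
    y.1 = σ * x.1 * σ⁻¹ →
      f y = opw p (a σ).toAdd * PowerSeries.C (ψ σ : ZMod p) * f x

variable {p : ℕ} [Fact p.Prime]
  {a : (AlgebraicClosure k ≃ₐ[k] AlgebraicClosure k) →* Multiplicative ℤ_[p]}
  {ψ : (AlgebraicClosure k ≃ₐ[k] AlgebraicClosure k) →* (ZMod p)ˣ}
  {K : IntermediateField k (AlgebraicClosure k)}

omit [NumberField k] in
theorem isTwistedMap_iff (f : ↥(K.fixingSubgroup ⊓ (a.ker ⊓ ψ.ker)) → PowerSeries (ZMod p)) :
    IsTwistedMap p a ψ K f ↔ f ∈ EE2 p a ψ (famI k) K.fixingSubgroup := by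
  constructor
  · rintro ⟨h1, h2, h3, h4⟩
    refine ⟨h1, h2, ?_, h4⟩
    rintro D ⟨V, rfl⟩ x hx
    exact h3 V x hx
  · rintro ⟨h1, h2, h3, h4⟩
    exact ⟨h1, h2, fun V x hx => h3 _ ⟨V, rfl⟩ x hx, h4⟩

/-- The module of these homomorphisms over `F_p[[T]]`. -/
def twistedMaps (p : ℕ) [Fact p.Prime]
    (a : (AlgebraicClosure k ≃ₐ[k] AlgebraicClosure k) →* Multiplicative ℤ_[p])
    (ψ : (AlgebraicClosure k ≃ₐ[k] AlgebraicClosure k) →* (ZMod p)ˣ)
    (K : IntermediateField k (AlgebraicClosure k)) :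
    Submodule (PowerSeries (ZMod p))
      (↥(K.fixingSubgroup ⊓ (a.ker ⊓ ψ.ker)) → PowerSeries (ZMod p)) where
  carrier := {f | IsTwistedMap p a ψ K f}
  add_mem' := fun {f g} hf hg => (isTwistedMap_iff _).2
    (add_mem ((isTwistedMap_iff f).1 hf) ((isTwistedMap_iff g).1 hg))
  zero_mem' := (isTwistedMap_iff _).2 (zero_mem _)
  smul_mem' := fun c {f} hf => (isTwistedMap_iff _).2
    (Submodule.smul_mem _ c ((isTwistedMap_iff f).1 hf))

/-- The rank `r(K)` of this module over `F_p[[T]]`. -/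
noncomputable def rk (p : ℕ) [Fact p.Prime]
    (a : (AlgebraicClosure k ≃ₐ[k] AlgebraicClosure k) →* Multiplicative ℤ_[p])
    (ψ : (AlgebraicClosure k ≃ₐ[k] AlgebraicClosure k) →* (ZMod p)ˣ)
    (K : IntermediateField k (AlgebraicClosure k)) : Cardinal :=
  Module.rank (PowerSeries (ZMod p)) (twistedMaps p a ψ K)

omit [NumberField k] in
theorem rk_eq : rk p a ψ = rkT p a ψ (famI k) := by
  funext K
  have h1 : twistedMaps p a ψ K = EE2 p a ψ (famI k) K.fixingSubgroup :=
    Submodule.ext fun f => isTwistedMap_iff f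
  unfold rk rkT
  rw [h1]

/-- The field `K₁` controls the ranks over the finite extensions of `k` in `Ω`. -/
def Controls (p : ℕ) [Fact p.Prime]
    (a : (AlgebraicClosure k ≃ₐ[k] AlgebraicClosure k) →* Multiplicative ℤ_[p])
    (ψ : (AlgebraicClosure k ≃ₐ[k] AlgebraicClosure k) →* (ZMod p)ˣ)
    (Ω K₁ : IntermediateField k (AlgebraicClosure k)) : Prop :=
  ∀ K ≤ Ω, FiniteDimensional k K → rk p a ψ K = rk p a ψ (K ⊓ K₁)

theorem result (p : ℕ) [Fact p.Prime]
    (a : (AlgebraicClosure k ≃ₐ[k] AlgebraicClosure k) →* Multiplicative ℤ_[p])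
    (_ha : Continuous a) (_hs : Function.Surjective a)
    (ψ : (AlgebraicClosure k ≃ₐ[k] AlgebraicClosure k) →* (ZMod p)ˣ)
    (_hψ : IsOpen (ψ.ker : Set (AlgebraicClosure k ≃ₐ[k] AlgebraicClosure k)))
    (Ω : IntermediateField k (AlgebraicClosure k)) (hn : Normal k Ω)
    (hd : ∀ K ≤ Ω, FiniteDimensional k K → ¬ p ∣ finrank k K) :
    (∀ K K' : IntermediateField k (AlgebraicClosure k), K ≤ Ω → K' ≤ Ω →
      FiniteDimensional k K → FiniteDimensional k K' →
      rk p a ψ K + rk p a ψ K' ≤ rk p a ψ (K ⊔ K') + rk p a ψ (K ⊓ K')) ∧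
    ((∃ m : ℕ, ∀ K ≤ Ω, FiniteDimensional k K → rk p a ψ K ≤ m) ↔
      ∃ K₁ ≤ Ω, FiniteDimensional k K₁ ∧ rk p a ψ K₁ < Cardinal.aleph0 ∧
        Controls p a ψ Ω K₁) ∧
    ((∃ m : ℕ, ∀ K ≤ Ω, FiniteDimensional k K → rk p a ψ K ≤ m) →
      ∃ K₀ ≤ Ω, FiniteDimensional k K₀ ∧ IsGalois k K₀ ∧ Controls p a ψ Ω K₀ ∧
        (∀ K₁ ≤ Ω, FiniteDimensional k K₁ → Controls p a ψ Ω K₁ → K₀ ≤ K₁) ∧
        (∀ K ≤ Ω, FiniteDimensional k K → Nat.Coprime (finrank k K) (finrank k K₀) →
          rk p a ψ K = rk p a ψ ⊥) ∧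
        (rk p a ψ K₀ ≤ 1 → IsCyclic (K₀ ≃ₐ[k] K₀) ∧ finrank k K₀ ∣ p - 1) ∧
        (∀ ℓ e : ℕ, ℓ.Prime → ∀ σ : K₀ ≃ₐ[k] K₀, orderOf σ = ℓ ^ (e + 1) →
          (orderOf (p : ZMod (ℓ ^ (e + 1))) : Cardinal) ≤ rk p a ψ K₀) ∧
        ∃ φ : (K₀ ≃ₐ[k] K₀) →* GL (Fin (rk p a ψ K₀).toNat) (ZMod p),
          Function.Injective φ) := by
  unfold Controls
  rw [rk_eq]
  exact Pool.Agent.U120.GapI.ctlT p Pool.Agent.U10.Mu.A.proof
    Pool.Agent.U10.Mu.C.proof a ψ (stab_famI k) Ω hn hd

end Pool.Agent.Results.MP_b78433_nt.CharacterParts
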