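import Pool.Agent.U10.Mu.A
import Pool.Agent.U10.Mu.C
import Pool.Agent.U10.Mu.Fam
import Pool.Agent.U120.GapF

/-!
# The jumps of the μ-ranks of class groups in abelian towers

Let `k` be a number field, for example an imaginary quadratic one, `p` a prime number and `k_∞` a
`ℤ_p`-extension of `k`, for example the cyclotomic one.  It is given by a continuous surjective homomorphism
`a` from the Galois group of `k` onto `ℤ_p` whose kernel is the Galois group of `k_∞`.

For a finite extension `K` of `k` of degree prime to `p` let `X(K)` be the Galois group over `K k_∞` of the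
maximal unramified abelian pro-`p` extension of `K k_∞`; it is the limit of the `p`-parts of
the class groups of the layers of `K k_∞ / K`.  It is a module over `Λ = ℤ_p[[Γ]]`, `Γ = Gal(k_∞ / k) =
Gal(K k_∞ / K)`.  Let `r(K)` be the rank over `F_p[[T]]` of the module of the `Λ`-linear maps
`X(K) → F_p[[T]]`, where `Γ` acts through the character `(1 + T) ^ a`.  If `X(K)` is pseudo-isomorphic to
`⊕ Λ/p^(m_i) ⊕ ⊕ Λ/(f_j)` then `r(K)` is the number of the factors `Λ/p^(m_i)`, `m_i ≥ 1`; so
`r(K) = 0` if and only if `μ = 0`.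

We show, for finite Galois extensions `K' ⊆ K` of `k` of degrees prime to `p`, and a prime `ℓ ≠ p`:

1. If `r(K)` is finite then `r(K) = r(K') + d` for some `d`, and if `d` is not `0` then `Gal(K/k)` has a
   representation over `F_p` of degree `d` which is not trivial on `Gal(K/K')`.
2. Let `K'` contain the elements of `K` which are fixed by the `ℓ ^ m`-th powers of all elements of `ℓ`-power
   order of `Gal(K/k)`.  Then `r(K) = r(K')`, or `r(K) ≥ r(K') + ord(p mod ℓ ^ (m + 1))`.
3. Let `L_m` be the layers of a `ℤ_ℓ ^ s`-extension of `k`: `Gal(L_m / k)` is isomorphic to `(ℤ/ℓ ^ m) ^ s`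
   (for an imaginary quadratic field `k` for example `s = 2` and the compositum of all
   `ℤ_ℓ`-extensions of `k`, or the anticyclotomic `ℤ_ℓ`-extension with `s = 1`).  Then each jump
   `r(L_(m+1)) - r(L_m)` is `0` or at least `ord(p mod ℓ ^ (m + 1))`; and one layer controls all finite
   extensions `K` of `k` in the union: `r(K) = r(K ∩ L_m)`, or `r(L_m) ≥ c ℓ ^ m` for infinitely many `m`, with a
   constant `c > 0`.

Proof.  The maps for `K` form a representation of `Gal(K/k)` over `F_p[[T]]`, and the maps for `K'` are the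
elements fixed by `Gal(K/K')` (transfer; helper10's project MU, with packages of helper103 and helper72).  The
quotient by them is torsion free, and `Gal(K/K')` acts on it without fixed elements.  Its kernel is
the kernel of a representation over `F_p` of the same degree.  If `d` is not zero then some `ℓ ^ m`-th power
of an element of `ℓ`-power order acts non-trivially, and a matrix over `F_p` of order `ℓ ^ (m + 1)` has a
minimal polynomial with an irreducible factor in common with the cyclotomic polynomial; the degree of this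
factor is the order of `p` modulo `ℓ ^ (m + 1)`.
-/

set_option autoImplicit false

open Module

namespace Pool.Agent.Results.MP_b78433_nt.JumpsInAbelianTowers

open Pool.Agent.U10.Mu
open Pool.Agent.U10.Shr (ine)

variable {k : Type} [Field k] [NumberField k]

/-- `f` is a continuous homomorphism from the Galois group of `K k_∞` (`a.ker` is the Galois group of
`k_∞`) to `F_p[[T]]` which is zero on all inertia groups,
with `f(σ x σ⁻¹) = (1 + T) ^ a(σ) f(x)` for all `σ` in the Galois group of `K`: a `Λ`-linear map from `X(K)` to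
`F_p[[T]]`. -/
def IsLambdaMap (p : ℕ) [Fact p.Prime]
    (a : (AlgebraicClosure k ≃ₐ[k] AlgebraicClosure k) →* Multiplicative ℤ_[p])
    (K : IntermediateField k (AlgebraicClosure k))
    (f : ↥(K.fixingSubgroup ⊓ a.ker) → PowerSeries (ZMod p)) : Prop :=
  (∀ x y, f (x * y) = f x + f y) ∧
  (∀ n, IsLocallyConstant fun x => PowerSeries.coeff n (f x)) ∧
  (∀ V : ValuationSubring (AlgebraicClosure k), ∀ x : ↥(K.fixingSubgroup ⊓ a.ker),
    x.1 ∈ ine k V → f x = 0) ∧
  ∀ σ ∈ K.fixingSubgroup, ∀ x y : ↥(K.fixingSubgroup ⊓ a.ker), y.1 = σ * x.1 * σ⁻¹ →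
    f y = opw p (a σ).toAdd * f x

variable {p : ℕ} [Fact p.Prime]
  {a : (AlgebraicClosure k ≃ₐ[k] AlgebraicClosure k) →* Multiplicative ℤ_[p]}
  {K : IntermediateField k (AlgebraicClosure k)}

omit [NumberField k] in
theorem isLambdaMap_iff (f : ↥(K.fixingSubgroup ⊓ a.ker) → PowerSeries (ZMod p)) :
    IsLambdaMap p a K f ↔ f ∈ EE p a (famI k) K.fixingSubgroup := by
  constructor
  · rintro ⟨h1, h2, h3, h4⟩
    refine ⟨h1, h2, ?_, h4⟩
    rintro D ⟨V, rfl⟩ x hx
    exact h3 V x hx
  · rintro ⟨h1, h2, h3, h4⟩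
    exact ⟨h1, h2, fun V x hx => h3 _ ⟨V, rfl⟩ x hx, h4⟩

/-- The module of the `Λ`-linear maps from `X(K)` to `F_p[[T]]`. -/
def lambdaMaps (p : ℕ) [Fact p.Prime]
    (a : (AlgebraicClosure k ≃ₐ[k] AlgebraicClosure k) →* Multiplicative ℤ_[p])
    (K : IntermediateField k (AlgebraicClosure k)) :
    Submodule (PowerSeries (ZMod p)) (↥(K.fixingSubgroup ⊓ a.ker) → PowerSeries (ZMod p)) where
  carrier := {f | IsLambdaMap p a K f}
  add_mem' := fun {f g} hf hg => (isLambdaMap_iff _).2
    (add_mem ((isLambdaMap_iff f).1 hf) ((isLambdaMap_iff g).1 hg))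
  zero_mem' := (isLambdaMap_iff _).2 (zero_mem _)
  smul_mem' := fun c {f} hf => (isLambdaMap_iff _).2
    (Submodule.smul_mem _ c ((isLambdaMap_iff f).1 hf))

/-- The rank `r(K)` of this module over `F_p[[T]]`. -/
noncomputable def rk (p : ℕ) [Fact p.Prime]
    (a : (AlgebraicClosure k ≃ₐ[k] AlgebraicClosure k) →* Multiplicative ℤ_[p])
    (K : IntermediateField k (AlgebraicClosure k)) : Cardinal :=
  Module.rank (PowerSeries (ZMod p)) (lambdaMaps p a K)

omit [NumberField k] in
theorem rk_eq : rk p a = rkE p a (famI k) := by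
  funext K
  have h1 : lambdaMaps p a K = EE p a (famI k) K.fixingSubgroup :=
    Submodule.ext fun f => isLambdaMap_iff f
  unfold rk rkE
  rw [h1]

/-- `K'` contains the elements of `K` which are fixed by the `ℓ ^ m`-th powers of all elements of `ℓ`-power
order of the Galois group of `K` over `k`. -/
def PowerFixed (ℓ m : ℕ) (K' K : IntermediateField k (AlgebraicClosure k)) : Prop :=
  ∀ x : K, (∀ σ : K ≃ₐ[k] K, (∃ j : ℕ, σ ^ ℓ ^ j = 1) → (σ ^ ℓ ^ m) x = x) →
    (x : AlgebraicClosure k) ∈ K'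

/-- The `L m` are the layers of a `ℤ_ℓ ^ s`-extension of `k`: an increasing sequence of finite Galois
extensions with Galois groups isomorphic to `(ℤ/ℓ ^ m) ^ s`. -/
def IsLayers (ℓ s : ℕ) (L : ℕ → IntermediateField k (AlgebraicClosure k)) : Prop :=
  Monotone L ∧ ∀ m, FiniteDimensional k (L m) ∧ IsGalois k (L m) ∧
    Nonempty ((L m ≃ₐ[k] L m) ≃* Multiplicative (Fin s → ZMod (ℓ ^ m)))

/-- The field `L₀` controls the ranks over the finite extensions of `k` in `Ω`. -/
def Controls (p : ℕ) [Fact p.Prime]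
    (a : (AlgebraicClosure k ≃ₐ[k] AlgebraicClosure k) →* Multiplicative ℤ_[p])
    (Ω L₀ : IntermediateField k (AlgebraicClosure k)) : Prop :=
  ∀ K ≤ Ω, FiniteDimensional k K → rk p a K = rk p a (K ⊓ L₀)

theorem result (p : ℕ) [Fact p.Prime]
    (a : (AlgebraicClosure k ≃ₐ[k] AlgebraicClosure k) →* Multiplicative ℤ_[p])
    (_ha : Continuous a) (_hs : Function.Surjective a) (ℓ : ℕ) (hℓ : ℓ.Prime) (hne : ℓ ≠ p) :
    (∀ K' K : IntermediateField k (AlgebraicClosure k), K' ≤ K →
      FiniteDimensional k K → IsGalois k K → IsGalois k K' → ¬ p ∣ finrank k K →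
      (rk p a K < Cardinal.aleph0 →
        ∃ (d : ℕ) (φ : (K ≃ₐ[k] K) →* GL (Fin d) (ZMod p)),
          rk p a K = rk p a K' + (d : Cardinal) ∧
          (d ≠ 0 → ∃ σ : K ≃ₐ[k] K,
            (∀ x : K, (x : AlgebraicClosure k) ∈ K' → σ x = x) ∧ φ σ ≠ 1)) ∧
      ∀ m : ℕ, PowerFixed ℓ m K' K → rk p a K = rk p a K' ∨
        rk p a K' + (orderOf (p : ZMod (ℓ ^ (m + 1))) : ℕ) ≤ rk p a K) ∧
    ∀ (s : ℕ) (L : ℕ → IntermediateField k (AlgebraicClosure k)), IsLayers ℓ s L →
      (∀ m, rk p a (L (m + 1)) = rk p a (L m) ∨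
        rk p a (L m) + (orderOf (p : ZMod (ℓ ^ (m + 1))) : ℕ) ≤ rk p a (L (m + 1))) ∧
      ((∃ m₀, rk p a (L m₀) < Cardinal.aleph0 ∧ Controls p a (⨆ m, L m) (L m₀)) ∨
      ∃ D : ℕ, ∀ M, ∃ m ≥ M, ((ℓ ^ m : ℕ) : Cardinal) ≤ D * rk p a (L m)) := by
  unfold Controls
  rw [rk_eq]
  refine ⟨(Pool.Agent.U120.GapE.mainG p Pool.Agent.U10.Mu.A.proof Pool.Agent.U10.Mu.C.proof a
    (stab_famI k) ℓ hℓ hne).1, fun s L hL => ?_⟩
  exact Pool.Agent.U120.GapF.mainH p Pool.Agent.U10.Mu.A.proof Pool.Agent.U10.Mu.C.proof a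
    (stab_famI k) ℓ hℓ hne s L hL.1 hL.2

end Pool.Agent.Results.MP_b78433_nt.JumpsInAbelianTowers
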