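import Pool.Agent.U152.MU.Quad

/-!
# `μ = 0` for abelian extensions of imaginary quadratic fields: reduction to real subfields

Let `p` be a prime (`p = 2` is allowed). Let `k` be an imaginary quadratic field, and let `K` be an
abelian extension of `k` which is Galois over `ℚ`. We prove that `μ = 0` for the cyclotomic
`ℤ_p`-extension of `K` if and only if `μ = 0` for the real field `E ∩ ℝ` and (if `p ≠ 2`) for the
maximal abelian subfield `E^ab`, for the fields `k ≤ E ≤ K` which are Galois over `ℚ` with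
`p ∤ [E : k]`. So Q1 for the prime `p` is equivalent to `μ = 0` for the real fields `E ∩ ℝ`, where `E`
runs over the abelian extensions of imaginary quadratic fields `k` which are Galois over `ℚ` and have
degree prime to `p` over `k`, together with (for odd `p`) the theorem of Ferrero and Washington for
the fields `E^ab`. Nothing is assumed: that theorem is one of the two conditions on the right side.

`DegLe p F C` says that the unramified elementary abelian `p`-extensions of `F` have degree at most `C`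
(unramified at the finite primes, this is the same as unramified everywhere if `p` is odd or `F` has no
real place, for example if `k ≤ F`).

Proof. Let `S` be a simple `𝔽_p[Gal(K / ℚ)]`-module. The `p`-Sylow subgroup of `Gal(K / k)` is normal
and acts trivially on `S`, so `S` is a module for `Gal(E / ℚ)` with `p ∤ [E : k]`. If complex
conjugation `c` has a fixed vector `v ≠ 0` then the field `ℚ(v)` is contained in `E ∩ ℝ`. Otherwise `c`
and its conjugates act as `- 1` and `ℚ(v)` is contained in `E^ab`, since the commutators of `c` and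
`Gal(E / ℚ)` generate the commutator subgroup. Now apply the detection theorem `detS`, which contains
genus theory for the primes which ramify in `K`.
-/

set_option autoImplicit false

namespace Pool.Agent.Results.MP_b78433_nt.RealSubfields

open Module IntermediateField Pool.Agent.Q60.MU Pool.Agent.W5h77.MB Pool.Agent.U152.MU
open Pool.Agent.X310.Mu (comms)
open scoped commutatorElement ComplexConjugate

/-- `k` is an imaginary quadratic field. -/
def IsImaginaryQuadratic (ι : Qb →+* ℂ) (k : IntermediateField ℚ Qb) : Prop :=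
  finrank ℚ k = 2 ∧ ¬ k ≤ realSub ι

/-- `K` is an abelian extension of `k`: the absolute Galois group of `k` acts commutatively on `K`. -/
def IsAbelianOver (k K : IntermediateField ℚ Qb) : Prop :=
  k ≤ K ∧ ∀ σ ∈ k.fixingSubgroup, ∀ τ ∈ k.fixingSubgroup, ∀ x ∈ K, σ (τ x) = τ (σ x)

/-- `E` is a finite Galois extension of `ℚ`, and `p` does not divide `[E : ℚ] / 2`. -/
def IsGaloisPrimeTo (p : ℕ) (E : IntermediateField ℚ Qb) : Prop :=
  FiniteDimensional ℚ E ∧ IsGalois ℚ E ∧ ∃ n, finrank ℚ E = n * 2 ∧ ¬ p ∣ n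

/-- `μ = 0` for the cyclotomic `ℤ_p`-extension of `F`: the unramified elementary abelian `p`-extensions
of the fields `F ℚ_m`, where `ℚ_m` is the layer of degree `p ^ m` of the cyclotomic
`ℤ_p`-extension of `ℚ`, have bounded degree. -/
def MuZero (ι : Qb →+* ℂ) (p : ℕ) (F : IntermediateField ℚ Qb) : Prop :=
  ∃ C : ℕ, ∀ (m : ℕ) (R : IntermediateField ℚ Qb), IsLayer p m R → R ≤ realSub ι →
    DegLe p (F ⊔ R) C

/-- The layers. -/
def LR (ι : Qb →+* ℂ) (p : ℕ) : Set (IntermediateField ℚ Qb) :=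
  {R | (∃ m, IsLayer p m R) ∧ R ≤ realSub ι}

theorem lay (ι : Qb →+* ℂ) {p : ℕ} (hp : p.Prime) : Lay p (LR ι p) := by
  rintro R ⟨⟨m, hR⟩, -⟩
  exact ⟨layer_fd hp hR, layer_galois hp hR, hR.2⟩

theorem muS_iff {ι : Qb →+* ℂ} {p : ℕ} (hp : p.Prime) (F : IntermediateField ℚ Qb)
    [FiniteDimensional ℚ F] : MuS p inertia (LR ι p) F.fixingSubgroup ↔ MuZero ι p F := by
  refine exists_congr fun C => ⟨fun h m R hR hr => ?_, fun h R hR => ?_⟩
  · have := layer_fd hp hR
    rw [← rankLe_iff, fixingSubgroup_sup]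
    exact h R ⟨⟨m, hR⟩, hr⟩
  · obtain ⟨⟨m, hR⟩, hr⟩ := hR
    have := layer_fd hp hR
    have h1 := h m R hR hr
    rwa [← rankLe_iff, fixingSubgroup_sup] at h1

theorem fd_of_le {E K : IntermediateField ℚ Qb} [FiniteDimensional ℚ K] (hE : E ≤ K) :
    FiniteDimensional ℚ E :=
  Submodule.finiteDimensional_of_le (S₁ := Subalgebra.toSubmodule E.toSubalgebra)
    (S₂ := Subalgebra.toSubmodule K.toSubalgebra) hE

/-- Subfields. -/
theorem down {ι : Qb →+* ℂ} {p : ℕ} (hp : p.Prime) {F K : IntermediateField ℚ Qb}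
    [FiniteDimensional ℚ K] (hFK : F ≤ K) (h : MuZero ι p K) : MuZero ι p F := by
  have hF : FiniteDimensional ℚ F := fd_of_le hFK
  rw [← muS_iff hp] at h ⊢
  exact MuS.of_le (lay ι hp) (fixingSubgroup_le hFK) K.fixingSubgroup_isOpen (index_ne_zero' K) h

theorem galois_case {p : ℕ} [hp : Fact p.Prime] {ι : Qb →+* ℂ} {k K : IntermediateField ℚ Qb}
    (hk : IsImaginaryQuadratic ι k) (hK : IsAbelianOver k K) [FiniteDimensional ℚ K]
    [hKg : IsGalois ℚ K]
    (h : ∀ E ≤ K, k ≤ E → IsGaloisPrimeTo p E →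
      MuZero ι p (E ⊓ realSub ι) ∧ (p ≠ 2 → MuZero ι p (abPart E))) : MuZero ι p K := by
  obtain ⟨c, hc, hcc⟩ := exists_conj ι
  obtain ⟨hk2, hki⟩ := hk
  obtain ⟨hkK, hab⟩ := hK
  have hkc : c ∉ k.fixingSubgroup := by
    intro h
    apply hki
    intro x hx
    rw [mem_realSub, ← hc]
    congr 1
    exact (mem_fixingSubgroup_iff k _).1 h x hx
  have hHn := quad_normal hk2
  have hkf : FiniteDimensional ℚ k := fd_of_le hkK
  have hKn : K.fixingSubgroup.Normal := (InfiniteGalois.normal_iff_isGalois K).2 hKg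
  have hKo := K.fixingSubgroup_isOpen
  have hKf := index_ne_zero' K
  have hcm := comm_mem hab hkK
  obtain ⟨N, hNn, hUN, hNH, hNp, hNd⟩ := exists_PP (p := p) hKn hHn hKf (fixingSubgroup_le hkK) hcm
  have hNo : IsOpen (N : Set Gal(Qb/ℚ)) := Subgroup.isOpen_mono hUN hKo
  have hfix := fix_fixed hNo
  set E := fixedField N with hE
  have hEK : E ≤ K := by
    have h3 := fixedField_antitone hUN
    rwa [InfiniteGalois.fixedField_fixingSubgroup K] at h3
  have hkE : k ≤ E := (le_iff_le _ _).2 hNH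
  have hEf : FiniteDimensional ℚ E := fd_of_le hEK
  have hEg : IsGalois ℚ E := (InfiniteGalois.normal_iff_isGalois E).1 (by rw [hfix]; exact hNn)
  have habE : ∀ σ ∈ k.fixingSubgroup, ∀ τ ∈ k.fixingSubgroup, ∀ x ∈ E, σ (τ x) = τ (σ x) :=
    fun σ hσ τ hτ x hx => hab σ hσ τ hτ x (hEK hx)
  obtain ⟨h1, h2⟩ := h E hEK hkE ⟨hEf, hEg, N.relIndex k.fixingSubgroup, by
    rw [finrank_eq_fixingSubgroup_index, hfix, ← Subgroup.relIndex_mul_index hNH,
      ← finrank_eq_fixingSubgroup_index Qb k, hk2], hNd⟩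
  have hreal : FiniteDimensional ℚ ↥(E ⊓ realSub ι) := fd_of_le inf_le_left
  have habf : FiniteDimensional ℚ ↥(abPart E) := fd_of_le (abPart_le E)
  rw [← muS_iff hp.out, fix_real hc, hfix] at h1
  rw [← muS_iff hp.out]
  refine detS (p := p) inertia_conj finRam_inertia (lay ι hp.out) hKn hKo hKf ?_
  intro S _ _ _ τ hτ hs
  have hnt : Nontrivial S := hs.1
  have hτN := trivial_of_pgroup hKn hNn hNp τ hτ hs
  by_cases hex : ∃ v : S, v ≠ 0 ∧ τ c v = v
  · obtain ⟨v, hv, hv1⟩ := hex
    exact ⟨_, ⟨hUN.trans le_sup_left, h1⟩, v, hv, zpowers_le_stab hτN hv1⟩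
  · have hm : ∀ v, τ c v = -v := by
      intro v
      have h3 : τ c (v + τ c v) = v + τ c v := by
        rw [map_add, ← Module.End.mul_apply, ← map_mul, hcc, map_one, Module.End.one_apply, add_comm]
      by_contra h4
      exact hex ⟨v + τ c v, fun h5 => h4 (neg_eq_of_add_eq_zero_right h5).symm, h3⟩
    obtain ⟨v, hv⟩ := exists_ne (0 : S)
    have hp2 : p ≠ 2 := by
      rintro rfl
      apply hex
      refine ⟨v, hv, ?_⟩
      rw [hm]
      have h3 : (2 : ZMod 2) • v = 0 := by
        have : (2 : ZMod 2) = 0 := rfl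
        rw [this, zero_smul]
      rw [two_smul] at h3
      exact neg_eq_of_add_eq_zero_left h3
    have h3 := h2 hp2
    rw [← muS_iff hp.out, fix_ab hk2 hkc habE, hfix] at h3
    refine ⟨_, ⟨hUN.trans le_sup_left, h3⟩, v, hv, ?_⟩
    exact sup_le (fun g hg => hτN g hg v) (comms_le_stab hm v)

/-- **Reduction to real subfields.** -/
theorem result (p : ℕ) (hp : p.Prime) (ι : Qb →+* ℂ) :
    (∀ k K : IntermediateField ℚ Qb, IsImaginaryQuadratic ι k → IsAbelianOver k K →
      FiniteDimensional ℚ K → IsGalois ℚ K →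
      (MuZero ι p K ↔ ∀ E ≤ K, k ≤ E → IsGaloisPrimeTo p E →
        MuZero ι p (E ⊓ realSub ι) ∧ (p ≠ 2 → MuZero ι p (abPart E)))) ∧
    ((∀ k K : IntermediateField ℚ Qb, IsImaginaryQuadratic ι k → IsAbelianOver k K →
        FiniteDimensional ℚ K → MuZero ι p K) ↔
      ∀ k E : IntermediateField ℚ Qb, IsImaginaryQuadratic ι k → IsAbelianOver k E →
        IsGaloisPrimeTo p E →
        MuZero ι p (E ⊓ realSub ι) ∧ (p ≠ 2 → MuZero ι p (abPart E))) := by
  have hpf : Fact p.Prime := ⟨hp⟩
  refine ⟨fun k K hk hK hKf hKg => ⟨fun h E hE _ _ => ?_, fun h => galois_case hk hK h⟩,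
    fun h k E hk hE hEp => ?_, fun h k K hk hK hKf => ?_⟩
  · exact ⟨down hp (inf_le_left.trans hE) h, fun _ => down hp ((abPart_le E).trans hE) h⟩
  · have hEf := hEp.1
    have h1 := h k E hk hE hEf
    exact ⟨down hp inf_le_left h1, fun _ => down hp (abPart_le E) h1⟩
  · obtain ⟨c, hc, hcc⟩ := exists_conj ι
    have hkc : c ∉ k.fixingSubgroup := by
      intro h
      apply hk.2
      intro x hx
      rw [mem_realSub, ← hc]
      congr 1
      exact (mem_fixingSubgroup_iff k _).1 h x hx
    obtain ⟨L, hKL, hLf, hLg, hL⟩ := exists_closure hk.1 hkc hcc hK.1 hK.2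
    refine down hp hKL (galois_case hk ⟨hK.1.trans hKL, hL⟩ fun E hE hkE hEp => ?_)
    exact h k E hk ⟨hkE, fun σ hσ τ hτ x hx => hL σ hσ τ hτ x (hE hx)⟩ hEp

end Pool.Agent.Results.MP_b78433_nt.RealSubfields
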